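import Pool.Agent.T6.H35.EQ.Scale
import Pool.Agent.T6.H35.EQ.Poly
import Pool.Agent.T6.H35.EQ.Prime2
import Pool.Agent.T6.H35.EQ.Bil

/-!
# At every scale the multiples of one of `ζ(9), ζ(11), …, ζ(21)` are equidistributed

For every `N` there is an odd `j = j(N)` between `9` and `21` such that, with a power saving in the
discrepancy, the values `P(1), …, P(N)` of every real polynomial `P` with leading coefficient
`ζ(j)`, the multiples of `ζ(j)` by the primes up to `N`, and the multiples of `ζ(j)` by the products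
`a b`, `a ∈ A`, `b ∈ B`, of the elements of arbitrary sets `A ⊆ [1, M]`, `B ⊆ [1, L]`, `M L ≤ N`,
are equidistributed modulo one.
-/

set_option autoImplicit false

namespace Pool.Agent.Results.MP_db0fbf_nt.EveryScale

open Finset Polynomial
open Pool.Agent.H469R2.NK (e norm_e e_add e_zero conj_e)
open Pool.Agent.T6.H35.EQ

lemma finish {ι : Type} (S : Finset ι) (x : ι → ℝ) {N N₀ : ℕ} (hN : 1 ≤ N) (hS : S.card ≤ N)
    {ζ σ Cw : ℝ} {m : ℤ} (hσ : 0 < σ) (hCw : 0 ≤ Cw) (hm : m ≠ 0)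
    (hmN : |(m : ℝ)| ≤ (N : ℝ) ^ (min (σ / 4) (1 / 480000)))
    (hI : N₀ ≤ N → Irr N (1 / 30000) ζ)
    (hE : ∀ h : ℕ, 1 ≤ h → Irr N (1 / 120000) ((h * m : ℤ) * ζ) →
      ‖∑ n ∈ S, e (h * x n)‖ ≤ Cw * (N : ℝ) ^ (1 - σ)) {c : ℝ} (h0 : 0 ≤ c) (h1 : c ≤ 1) :
    |((S.filter (fun n => Int.fract (x n) < c)).card : ℝ) - c * S.card| ≤
      (4 * Cw + N₀ + 6) * (N : ℝ) ^ (1 - min (σ / 4) (1 / 480000)) := by
  set δ : ℝ := min (σ / 4) (1 / 480000) with hδ
  have hδ0 : 0 < δ := lt_min (by positivity) (by norm_num)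
  have hδ1 : δ ≤ σ / 4 := min_le_left _ _
  have hδ2 : δ ≤ 1 / 480000 := min_le_right _ _
  have hN1 : (1 : ℝ) ≤ N := by exact_mod_cast hN
  have hN0 : (0 : ℝ) < N := by linarith
  have hpw : ∀ t : ℝ, 0 < (N : ℝ) ^ t := fun t => Real.rpow_pos_of_pos hN0 t
  have hmono : ∀ {s t : ℝ}, s ≤ t → (N : ℝ) ^ s ≤ (N : ℝ) ^ t := fun h =>
    Real.rpow_le_rpow_of_exponent_le hN1 h
  have hSr : (S.card : ℝ) ≤ N := by exact_mod_cast hS
  have htriv : |((S.filter (fun n => Int.fract (x n) < c)).card : ℝ) - c * S.card| ≤ N := by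
    have h2 : ((S.filter (fun n => Int.fract (x n) < c)).card : ℝ) ≤ S.card := by
      exact_mod_cast card_filter_le _ _
    have h3 : (0 : ℝ) ≤ (S.filter (fun n => Int.fract (x n) < c)).card := Nat.cast_nonneg _
    have h4 : (0 : ℝ) ≤ S.card := Nat.cast_nonneg _
    rw [abs_le]
    constructor <;> nlinarith
  have hNs : (N : ℝ) = (N : ℝ) ^ δ * (N : ℝ) ^ (1 - δ) := by rw [← Real.rpow_add hN0]; simp
  have hN00 : (0 : ℝ) ≤ N₀ := Nat.cast_nonneg _
  have hP := hpw (1 - δ)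
  rcases Nat.lt_or_ge N N₀ with hlt | hge
  · refine htriv.trans ?_
    have h2 : (N : ℝ) ^ δ ≤ N₀ := by
      calc (N : ℝ) ^ δ ≤ (N : ℝ) ^ (1 : ℝ) := hmono (by linarith)
        _ = N := Real.rpow_one _
        _ ≤ N₀ := by exact_mod_cast hlt.le
    calc (N : ℝ) = (N : ℝ) ^ δ * (N : ℝ) ^ (1 - δ) := hNs
      _ ≤ (4 * Cw + N₀ + 6) * (N : ℝ) ^ (1 - δ) := by
          apply mul_le_mul_of_nonneg_right _ hP.le
          linarith
  · rcases lt_or_ge ((N : ℝ) ^ (1 / 60000 : ℝ)) 2 with hsm | hbig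
    · refine htriv.trans ?_
      have h2 : (N : ℝ) ^ δ ≤ 2 := (hmono (by linarith)).trans hsm.le
      calc (N : ℝ) = (N : ℝ) ^ δ * (N : ℝ) ^ (1 - δ) := hNs
        _ ≤ (4 * Cw + N₀ + 6) * (N : ℝ) ^ (1 - δ) := by
            apply mul_le_mul_of_nonneg_right _ hP.le
            linarith
    · have hII := hI hge
      have h2 := disc S x hN1 hSr hδ0 (E := Cw * (N : ℝ) ^ (1 - σ)) (fun h hh1 hh2 => by
        apply hE h hh1
        apply hII.mul (by have : (h : ℤ) ≠ 0 := by exact_mod_cast (by omega : h ≠ 0)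
                          exact mul_ne_zero this hm)
        push_cast
        rw [abs_mul, abs_of_nonneg (Nat.cast_nonneg h)]
        calc (N : ℝ) ^ (1 / 120000 : ℝ) * (h * |(m : ℝ)|) ≤
            (N : ℝ) ^ (1 / 120000 : ℝ) * ((2 * (N : ℝ) ^ (2 * δ)) * (N : ℝ) ^ δ) := by gcongr
          _ ≤ (N : ℝ) ^ (1 / 120000 : ℝ) * (((N : ℝ) ^ (1 / 60000 : ℝ) * (N : ℝ) ^ (2 * δ)) * (N : ℝ) ^ δ) := by
              gcongr
          _ = (N : ℝ) ^ (1 / 120000 + (1 / 60000 + 2 * δ + δ) : ℝ) := by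
              rw [← Real.rpow_add hN0, ← Real.rpow_add hN0, ← Real.rpow_add hN0]
          _ ≤ _ := hmono (by linarith)) h0 h1
      refine h2.trans ?_
      have h3 : (N : ℝ) ^ (2 * δ) * (N : ℝ) ^ (1 - σ) ≤ (N : ℝ) ^ (1 - δ) := by
        rw [← Real.rpow_add hN0]
        exact hmono (by linarith)
      have h4 : 4 * (N : ℝ) ^ (2 * δ) * (Cw * (N : ℝ) ^ (1 - σ)) =
          4 * Cw * ((N : ℝ) ^ (2 * δ) * (N : ℝ) ^ (1 - σ)) := by ring
      rw [h4]
      have h5 : 4 * Cw * ((N : ℝ) ^ (2 * δ) * (N : ℝ) ^ (1 - σ)) ≤ 4 * Cw * (N : ℝ) ^ (1 - δ) :=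
        mul_le_mul_of_nonneg_left h3 (by positivity)
      nlinarith

/-- **Theorem.** There is a function `j` with values in `{9, 11, …, 21}` with the following
properties.

(1) For `k ≥ 1` there are `δ > 0`, `C` such that for all `N ≥ 1`, all real polynomials `P` of degree
`k` with leading coefficient `m ζ(j(N))`, `m` an integer, `1 ≤ |m| ≤ N ^ δ`, and all `c ∈ [0, 1]`,
the number of `n < N` with `{P(n)} < c` is `c N + O(N ^ (1 - δ))`.

(2) For some `δ > 0`, `C`, all `N ≥ 1`, all integers `m`, `1 ≤ |m| ≤ N ^ δ`, all real `β` and all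
`c ∈ [0, 1]`, the number of primes `p ≤ N` with `{m ζ(j(N)) p + β} < c` is
`c π(N) + O(N ^ (1 - δ))`.

(3) For `κ > 0` there are `δ > 0`, `C` such that for all `N ≥ 1`, all `M, L ≥ N ^ κ` with
`M L ≤ N`, all sets `A ⊆ [1, M]`, `B ⊆ [1, L]`, and `m`, `β`, `c` as in (2), the number of
`(a, b) ∈ A × B` with `{m ζ(j(N)) a b + β} < c` is `c |A| |B| + O(N ^ (1 - δ))`.

(4) Some value is taken by `j` infinitely often. -/
theorem result : ∃ j : ℕ → ℕ, (∀ N, Odd (j N) ∧ 9 ≤ j N ∧ j N ≤ 21) ∧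
    (∀ k : ℕ, 1 ≤ k → ∃ δ : ℝ, 0 < δ ∧ ∃ C : ℝ, ∀ N : ℕ, 1 ≤ N → ∀ P : ℝ[X], P.natDegree = k →
      ∀ m : ℤ, m ≠ 0 → |(m : ℝ)| ≤ (N : ℝ) ^ δ → P.leadingCoeff = m * zt (j N) →
      ∀ c : ℝ, 0 ≤ c → c ≤ 1 →
        |(((range N).filter (fun n : ℕ => Int.fract (P.eval (n : ℝ)) < c)).card : ℝ) - c * N| ≤
          C * (N : ℝ) ^ (1 - δ)) ∧
    (∃ δ : ℝ, 0 < δ ∧ ∃ C : ℝ, ∀ N : ℕ, 1 ≤ N → ∀ m : ℤ, m ≠ 0 → |(m : ℝ)| ≤ (N : ℝ) ^ δ →
      ∀ β c : ℝ, 0 ≤ c → c ≤ 1 →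
        |(((range (N + 1)).filter
            (fun p : ℕ => p.Prime ∧ Int.fract (m * zt (j N) * p + β) < c)).card : ℝ) -
          c * Nat.primeCounting N| ≤ C * (N : ℝ) ^ (1 - δ)) ∧
    (∀ κ : ℝ, 0 < κ → ∃ δ : ℝ, 0 < δ ∧ ∃ C : ℝ, ∀ N : ℕ, 1 ≤ N → ∀ (M L : ℕ) (A B : Finset ℕ),
      A ⊆ Icc 1 M → B ⊆ Icc 1 L → M * L ≤ N → (N : ℝ) ^ κ ≤ M → (N : ℝ) ^ κ ≤ L →
      ∀ m : ℤ, m ≠ 0 → |(m : ℝ)| ≤ (N : ℝ) ^ δ → ∀ β c : ℝ, 0 ≤ c → c ≤ 1 →
        |(((A ×ˢ B).filter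
            (fun z : ℕ × ℕ => Int.fract (m * zt (j N) * ((z.1 : ℝ) * z.2) + β) < c)).card : ℝ) -
          c * (A.card * B.card)| ≤ C * (N : ℝ) ^ (1 - δ)) ∧
    ∃ j₀ : ℕ, {N : ℕ | j N = j₀}.Infinite := by
  classical
  obtain ⟨N₀, -, hsc⟩ := scale
  have hex : ∀ N : ℕ, ∃ j ∈ JJ, N₀ ≤ N → Irr N (1 / 30000) (zt j) := by
    intro N
    by_cases h : N₀ ≤ N
    · obtain ⟨j, hj, hI⟩ := hsc N h
      exact ⟨j, hj, fun _ => hI⟩
    · exact ⟨9, by simp [JJ], fun h' => absurd h' h⟩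
  choose j hjJ hjI using hex
  refine ⟨j, fun N => of_mem_JJ (hjJ N), ?_, ?_, ?_, ?_⟩
  · intro k hk
    obtain ⟨k, rfl⟩ : ∃ k', k = k' + 1 := ⟨k - 1, by omega⟩
    obtain ⟨σ, hσ0, -, Cw, hCw, hw⟩ := weyl k (1 / 120000) (by norm_num) (by norm_num)
    refine ⟨min (σ / 4) (1 / 480000), lt_min (by positivity) (by norm_num), 4 * Cw + N₀ + 6, ?_⟩
    intro N hN P hP m hm hmN hlead c h0 h1
    have h2 := finish (range N) (fun n : ℕ => P.eval (n : ℝ)) hN (by simp) hσ0 (by linarith) hm hmN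
      (hjI N) (N₀ := N₀) (Cw := Cw) (fun h hh hIr => by
        have h3 : Ph k (((h * m : ℤ) : ℝ) * zt (j N)) (fun n => (C (h : ℝ) * P).eval (n : ℝ)) := by
          have h4 := ph_poly k (C (h : ℝ) * P) ((natDegree_C_mul_le _ _).trans hP.le)
          rw [coeff_C_mul] at h4
          have h5 : P.coeff (k + 1) = m * zt (j N) := by
            rw [← hlead, leadingCoeff, hP]
          rw [h5] at h4
          convert h4 using 1
          push_cast; ring
        have h6 := hw N N _ _ hN le_rfl hIr h3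
        simpa only [eval_mul, eval_C] using h6) h0 h1
    simpa only [card_range] using h2
  · obtain ⟨σ, hσ0, -, Cw, hCw, hw⟩ := prime_sum (η := 1 / 120000) (by norm_num)
    refine ⟨min (σ / 4) (1 / 480000), lt_min (by positivity) (by norm_num), 4 * Cw + N₀ + 6, ?_⟩
    intro N hN m hm hmN β c h0 h1
    have hcard : ((range (N + 1)).filter Nat.Prime).card ≤ N := by
      have h3 : (range (N + 1)).filter Nat.Prime ⊆ Icc 1 N := by
        intro p hp
        rw [mem_filter, mem_range] at hp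
        rw [mem_Icc]
        exact ⟨hp.2.one_lt.le, by omega⟩
      have := card_le_card h3
      rwa [Nat.card_Icc, Nat.add_sub_cancel] at this
    have h2 := finish ((range (N + 1)).filter Nat.Prime) (fun p : ℕ => m * zt (j N) * (p : ℝ) + β) hN hcard
      hσ0 (by linarith) hm hmN (hjI N) (N₀ := N₀) (Cw := Cw) (fun h hh hIr => by
        have h6 := hw N _ hN hIr
        have h7 : ∑ p ∈ (range (N + 1)).filter Nat.Prime, e (h * (m * zt (j N) * (p : ℝ) + β)) =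
            e (h * β) * ∑ p ∈ (range (N + 1)).filter Nat.Prime,
              e ((p : ℝ) * (((h * m : ℤ) : ℝ) * zt (j N))) := by
          rw [mul_sum]
          refine sum_congr rfl fun p _ => ?_
          rw [← e_add]; congr 1; push_cast; ring
        rw [h7, norm_mul, norm_e, one_mul]
        exact h6) h0 h1
    rw [filter_filter] at h2
    have h8 : Nat.primeCounting N = ((range (N + 1)).filter Nat.Prime).card := by
      rw [Nat.primeCounting, Nat.primeCounting', Nat.count_eq_card_filter_range]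
    rw [h8]
    exact h2
  · intro κ hκ
    obtain ⟨σ, hσ0, -, Cw, hCw, hw⟩ := bil_sum (η := 1 / 120000) (by norm_num) hκ
    refine ⟨min (σ / 4) (1 / 480000), lt_min (by positivity) (by norm_num), 4 * Cw + N₀ + 6, ?_⟩
    intro N hN M L A B hA hB hML hM hL m hm hmN β c h0 h1
    have hcard : (A ×ˢ B).card ≤ N := by
      rw [card_product]
      have h3 := card_le_card hA
      have h4 := card_le_card hB
      rw [Nat.card_Icc, Nat.add_sub_cancel] at h3 h4
      exact (Nat.mul_le_mul h3 h4).trans hML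
    have h2 := finish (A ×ˢ B) (fun z : ℕ × ℕ => m * zt (j N) * ((z.1 : ℝ) * z.2) + β) hN hcard
      hσ0 (by linarith) hm hmN (hjI N) (N₀ := N₀) (Cw := Cw) (fun h hh hIr => by
        have h6 := hw N M L A B _ hN hIr hA hB hML hM hL
        have h7 : ∑ z ∈ A ×ˢ B, e (h * (m * zt (j N) * ((z.1 : ℝ) * z.2) + β)) =
            e (h * β) * ∑ a ∈ A, ∑ b ∈ B, e ((a : ℝ) * b * (((h * m : ℤ) : ℝ) * zt (j N))) := by
          rw [sum_product, mul_sum]
          refine sum_congr rfl fun a _ => ?_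
          rw [mul_sum]
          refine sum_congr rfl fun b _ => ?_
          rw [← e_add]; congr 1; push_cast; ring
        rw [h7, norm_mul, norm_e, one_mul]
        exact h6) h0 h1
    rw [card_product] at h2
    push_cast at h2
    exact h2
  · by_contra hcon
    push Not at hcon
    have h1 : (⋃ i ∈ JJ, {N : ℕ | j N = i}).Finite :=
      Set.Finite.biUnion JJ.finite_toSet fun i _ => hcon i
    have h2 : (⋃ i ∈ JJ, {N : ℕ | j N = i}) = Set.univ := by
      ext N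
      simp only [Set.mem_iUnion, Set.mem_univ, iff_true]
      exact ⟨j N, hjJ N, rfl⟩
    rw [h2] at h1
    exact Set.infinite_univ h1

end Pool.Agent.Results.MP_db0fbf_nt.EveryScale
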