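import Pool.Agent.T6.H35.EQ.MF5

/-!
# All multiplicative functions are orthogonal to the multiples of one of `ζ(9), ζ(11), …, ζ(21)`, at every scale

For every `N ≥ 16` there is an odd `j = j(N)` between `9` and `21` such that, with `z = ζ(j)` and all
integers `1 ≤ |m| ≤ N ^ δ`:

* `∑_{n ≤ N} f(n) exp(2 π i m z n)` is `O(N log log N / log N)`, uniformly over ALL multiplicative functions
  `f` with values in the closed unit disc;
* `m z n` is equidistributed modulo one along the `n ≤ N` of a set with multiplicative indicator function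
  for which an additive function with values in a finite abelian group `G` takes a given value, with an
  error `O(N (log log N)² / log N)` uniformly over all such sets, all groups `G` and additive functions.
-/

set_option autoImplicit false

namespace Pool.Agent.Results.MP_db0fbf_nt.MultiplicativeFunctions

open Finset
open Pool.Agent.T6.H35.EQ
open Pool.Agent.H469R2.NK (e norm_e e_add e_zero conj_e)

open Classical in
theorem result : ∃ (δ C : ℝ) (j : ℕ → ℕ), 0 < δ ∧ ∀ N : ℕ, 16 ≤ N →
    (Odd (j N) ∧ 9 ≤ j N ∧ j N ≤ 21) ∧ ∀ m : ℤ, m ≠ 0 → |(m : ℝ)| ≤ (N : ℝ) ^ δ →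
    -- (1) multiplicative functions
    (∀ f : ℕ → ℂ, (∀ a b : ℕ, a.Coprime b → f (a * b) = f a * f b) → (∀ n, ‖f n‖ ≤ 1) →
      ‖∑ n ∈ Icc 1 N, f n * Complex.exp (((2 * Real.pi * (n * (m * zt (j N))) : ℝ) : ℂ) * Complex.I)‖ ≤
        C * (N * (Real.log (Real.log N) / Real.log N))) ∧
    -- (2) level sets of additive functions on multiplicative sets
    (∀ (G : Type) [AddCommGroup G] [Finite G] (g : ℕ → G) (A : Set ℕ) (r : G),
      (∀ a b : ℕ, a.Coprime b → g (a * b) = g a + g b) →
      (∀ a b : ℕ, a.Coprime b → (a * b ∈ A ↔ a ∈ A ∧ b ∈ A)) →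
      ∀ β c : ℝ, 0 ≤ c → c ≤ 1 →
      |((((Icc 1 N).filter (fun n => n ∈ A ∧ g n = r)).filter
          (fun n : ℕ => Int.fract (m * zt (j N) * n + β) < c)).card : ℝ) -
        c * ((Icc 1 N).filter (fun n => n ∈ A ∧ g n = r)).card| ≤
        C * (N * (Real.log (Real.log N) ^ 2 / Real.log N))) := by
  obtain ⟨C, hC, j, hj⟩ := mf_scale
  obtain ⟨D, hD⟩ := mf_disc hC
  refine ⟨1 / 120000, max C D, j, by norm_num, fun N hN => ⟨of_mem_JJ (hj N hN).1, fun m hm hmN => ⟨?_, ?_⟩⟩⟩
  · intro f hf hf1
    have hN1 : (1 : ℝ) ≤ N := by exact_mod_cast (by omega : 1 ≤ N)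
    obtain ⟨hll, hl2⟩ := loglog_ge hN
    have h1 := (hj N hN).2 m hm (hmN.trans (Real.rpow_le_rpow_of_exponent_le hN1 (by norm_num))) f ⟨hf, hf1⟩
    refine h1.trans (mul_le_mul_of_nonneg_right (le_max_left _ _) ?_)
    have : 0 < Real.log N := by linarith
    positivity
  · intro G _ _ g A r hg hA β c h0 h1
    let _ : Fintype G := Fintype.ofFinite G
    have h2 := hD N (zt (j N)) hN (hj N hN).2 m hm hmN ((Icc 1 N).filter (fun n => n ∈ A ∧ g n = r))
      (filter_subset _ _) (fun α E hE => level g hg A hA r α hE) β c h0 h1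
    refine h2.trans (mul_le_mul_of_nonneg_right (le_max_right _ _) ?_)
    obtain ⟨hll, hl2⟩ := loglog_ge hN
    have : 0 < Real.log N := by linarith
    positivity

end Pool.Agent.Results.MP_db0fbf_nt.MultiplicativeFunctions
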