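import Pool.Agent.T6.H23.ZM.Fin

/-!
# A simultaneous measure for `ζ(9), ζ(11), …, ζ(21)` which sees the ninth powers dividing `q`

`MeasureZeta9To21` bounds the simultaneous approximation of the seven numbers by rationals with a common
denominator `q` with the exponent `1038`. Here the exponent is `274`, up to the factor `P(q)^6792`, where
`P(q)` is the product of the large primes `p = 1 mod 24` whose ninth powers divide `q`; as `P(q)^9 ∣ q` this
gives `1029` for all `q`. For the denominators `b^k` the bound is uniform in the base `b`, and it bounds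
the blocks of digits of the seven numbers with a common period.

The Hankel determinants of `Pool.Agent.H343Y`, applied to the rational numbers `a j / q`, do not vanish for
the primes `n = 1 mod 24` with `n^9 ∤ q`; the bound is `exp(-849 n)` when `log q ≤ 3.1 n`, and the prime
number theorem in the class `1 mod 24` gives such an `n` near `log q / 3.1 + 8 log P(q)`.
-/

set_option autoImplicit false

namespace Pool.Agent.Results.MP_db0fbf_nt.NinthPowerMeasure

/-- the odd numbers from `9` to `21` -/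
def T : Finset ℕ := {9, 11, 13, 15, 17, 19, 21}

/-- `ζ(j) = ∑ 1/(n+1)^j` -/
noncomputable def zeta (j : ℕ) : ℝ := ∑' n : ℕ, 1 / ((n : ℝ) + 1) ^ j

open Classical in
/-- the product of the primes `p = 1 mod 24` with `p^9 ∣ q` and `log q < 3.1 p` -/
noncomputable def P (q : ℕ) : ℕ :=
  ∏ p ∈ q.primeFactors.filter (fun p : ℕ => p % 24 = 1 ∧ p ^ 9 ∣ q ∧ Real.log q < 3.1 * p), p

/-- the `i`-th digit of `x` after the point in base `b` -/
noncomputable def digit (b : ℕ) (x : ℝ) (i : ℕ) : ℤ := ⌊x * (b : ℝ) ^ i⌋ % (b : ℤ)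

lemma P_eq (q : ℕ) : P q = Pool.Agent.T6.H23.ZM.P9 (10 / 31) q := by
  unfold P Pool.Agent.T6.H23.ZM.P9 Pool.Agent.T6.H23.ZM.S9
  congr 1
  apply Finset.filter_congr
  intro p _
  constructor
  · rintro ⟨h1, h2, h3⟩
    exact ⟨h1, by linarith, h2⟩
  · rintro ⟨h1, h2, h3⟩
    exact ⟨h1, h3, by linarith⟩

/-- **A simultaneous measure for `ζ(9), …, ζ(21)` with the exponent `274` for denominators without large
ninth powers.** -/
theorem result : ∃ c : ℝ, 0 < c ∧
    -- the measure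
    (∀ (a : ℕ → ℤ) (q : ℕ), 0 < q → ∃ j ∈ T,
      c / ((q : ℝ) ^ 274 * (P q : ℝ) ^ 6792) ≤ |zeta j - (a j : ℝ) / q|) ∧
    -- all denominators
    (∀ (a : ℕ → ℤ) (q : ℕ), 0 < q → ∃ j ∈ T, c / (q : ℝ) ^ 1029 ≤ |zeta j - (a j : ℝ) / q|) ∧
    -- the denominators `u^k v`, uniformly in `u, v, k`
    (∀ (a : ℕ → ℤ) (u v k : ℕ), 0 < u → 0 < v → ∃ j ∈ T,
      c / ((u : ℝ) ^ (274 * k + 6792) * (v : ℝ) ^ 1029) ≤ |zeta j - (a j : ℝ) / (u ^ k * v : ℕ)|) ∧
    -- the denominators `m!`
    (∀ (a : ℕ → ℤ) (m : ℕ), ∃ j ∈ T,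
      c / (m.factorial : ℝ) ^ 274 ≤ |zeta j - (a j : ℝ) / m.factorial|) ∧
    -- common periodic blocks of digits, uniformly in the base
    (∃ C : ℝ, ∀ b : ℕ, 2 ≤ b → ∀ k r m : ℕ, 1 ≤ m →
      (∀ j ∈ T, ∀ i, k < i → i + m ≤ k + r → digit b (zeta j) (i + m) = digit b (zeta j) i) →
      (r : ℝ) ≤ 273 * k + 1029 * m + C) := by
  obtain ⟨c, hc, h1, h2, h3, h4, h5⟩ := Pool.Agent.T6.H23.ZM.final
  refine ⟨c, hc, ?_, h2, h3, h4, h5⟩
  intro a q hq
  rw [P_eq]
  exact h1 a q hq

end Pool.Agent.Results.MP_db0fbf_nt.NinthPowerMeasure
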