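import Pool.Agent.T6.H35.EQ.Even
import Pool.Agent.T6.H35.EQ.Arb2

/-!
# Additive problems with primes in the Bohr sets of one of `ζ(9), ζ(11), …, ζ(21)`

For every `N` there is an odd `j = j(N)` between `9` and `21` such that, with `z = ζ(j)`:

* the solutions of `a p + b q = n` in primes `p, q ≤ N` are, for almost all `n` and with a power saving,
  equidistributed with respect to the fractional part of `m z p + β`, in mean square over `n`, with
  coefficients, multipliers and arcs which may depend on `n`;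
* the representations of EVERY large odd number `N` as a sum of three primes `p + q + r` are
  equidistributed with respect to the fractional parts of `k z p + β` and `k' z q + β'`, with a relative
  error `N ^ (-δ)`;
* the same for the representations of almost all even numbers up to `N` as a sum of two primes.
-/

set_option autoImplicit false

namespace Pool.Agent.Results.MP_db0fbf_nt.PrimeSumsInArcs

open Finset
open Pool.Agent.T6.H35.EQ

theorem result : ∃ (δ C : ℝ) (j : ℕ → ℕ), 0 < δ ∧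
    (∀ N : ℕ, 1 ≤ N → Odd (j N) ∧ 9 ≤ j N ∧ j N ≤ 21) ∧
    -- (1) two primes, arbitrary sets
    (∀ N : ℕ, 1 ≤ N → ∀ (T : Finset ℤ) (a b m : ℤ → ℤ) (β c : ℤ → ℝ),
      (∀ n ∈ T, a n ≠ 0 ∧ b n ≠ 0 ∧ m n ≠ 0 ∧ |(a n : ℝ)| ≤ (N : ℝ) ^ δ ∧ |(b n : ℝ)| ≤ (N : ℝ) ^ δ ∧
        |(m n : ℝ)| ≤ (N : ℝ) ^ δ ∧ 0 ≤ c n ∧ c n ≤ 1) →
      ∑ n ∈ T, |(((prs N (a n) (b n) n).filter
          (fun x => Int.fract (m n * zt (j N) * x.1 + β n) < c n)).card : ℝ) -
        c n * (prs N (a n) (b n) n).card| ≤ C * (N : ℝ) ^ (3 / 2 - δ) * √T.card) ∧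
    -- (2) three primes
    (∃ N₀ : ℕ, ∀ N : ℕ, N₀ ≤ N → Odd N → 0 < (tri N).card ∧ ∀ k k' : ℤ, k ≠ 0 → k' ≠ 0 →
      |(k : ℝ)| ≤ (N : ℝ) ^ δ → |(k' : ℝ)| ≤ (N : ℝ) ^ δ → ∀ β β' c c' : ℝ, 0 ≤ c → c ≤ 1 →
      0 ≤ c' → c' ≤ 1 →
      |(((tri N).filter (fun x => Int.fract (k * zt (j N) * x.1 + β) < c ∧
        Int.fract (k' * zt (j N) * x.2.1 + β') < c')).card : ℝ) - c * c' * (tri N).card| ≤
        (N : ℝ) ^ (-δ) * (tri N).card) ∧
    -- (3) almost all even numbers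
    (∀ U : ℕ, ∃ D : ℝ, ∀ N : ℕ, 2 ≤ N → ∀ T : Finset ℕ, (∀ n ∈ T, n ≤ N ∧ Even n ∧
      ¬ (0 < (prs N 1 1 n).card ∧ ∀ k : ℤ, k ≠ 0 → |(k : ℝ)| ≤ (N : ℝ) ^ δ → ∀ β c : ℝ, 0 ≤ c → c ≤ 1 →
        |(((prs N 1 1 n).filter (fun x => Int.fract (k * zt (j N) * x.1 + β) < c)).card : ℝ) -
          c * (prs N 1 1 n).card| ≤ (N : ℝ) ^ (-δ) * (prs N 1 1 n).card)) →
      (T.card : ℝ) ≤ D * (N / Real.log N ^ U)) := by
  obtain ⟨δ, hδ0, hδ1, C, hC, j, hj⟩ := arb
  refine ⟨δ / 4, C, j, by positivity, fun N hN => of_mem_JJ (hj N hN).1, fun N hN => ?_, ?_, fun U => ?_⟩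
  · exact (hj N hN).2.mono hN (by linarith) (by linarith)
  · obtain ⟨n1, h1⟩ := tri_many (δ / 4) (by positivity)
    obtain ⟨n2, h2⟩ := exists_nat_gt ((2 * C) ^ (2 / δ))
    refine ⟨n1 + n2 + 1, fun N hN hodd => ?_⟩
    have hN1 : (1 : ℝ) ≤ N := by exact_mod_cast (by omega : 1 ≤ N)
    have hN0 : (0 : ℝ) < N := by linarith
    have h3 := h1 N (by omega) hodd
    have hpw : ∀ t : ℝ, 0 < (N : ℝ) ^ t := fun t => Real.rpow_pos_of_pos hN0 t
    have hpos : (0 : ℝ) < (tri N).card := lt_of_lt_of_le (hpw _) h3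
    refine ⟨by exact_mod_cast hpos, ?_⟩
    intro k k' hk hk' hkn hkn' β β' c c' h0 h1 h0' h1'
    have h4 : (N : ℝ) ^ (δ / 4) ≤ (N : ℝ) ^ δ := Real.rpow_le_rpow_of_exponent_le hN1 (by linarith)
    refine (tri_disc (by omega) hδ0.le (by linarith) (hj N (by omega)).2 hk (hkn.trans h4) hk'
      (hkn'.trans h4) β β' h0 h1 h0' h1').trans ?_
    have h5 : 2 * C ≤ (N : ℝ) ^ (δ / 2) := by
      have h6 : (2 * C) ^ (2 / δ) ≤ (N : ℝ) := h2.le.trans (by exact_mod_cast (by omega : n2 ≤ N))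
      calc 2 * C = ((2 * C) ^ (2 / δ)) ^ (δ / 2) := by
            rw [← Real.rpow_mul (by linarith)]
            have : 2 / δ * (δ / 2) = 1 := by field_simp
            rw [this, Real.rpow_one]
        _ ≤ _ := Real.rpow_le_rpow (by positivity) h6 (by positivity)
    calc 2 * C * (N : ℝ) ^ (2 - δ) ≤ (N : ℝ) ^ (δ / 2) * (N : ℝ) ^ (2 - δ) := by
          have := hpw (2 - δ)
          gcongr
      _ = (N : ℝ) ^ (-(δ / 4)) * (N : ℝ) ^ (2 - δ / 4) := by
          rw [← Real.rpow_add hN0, ← Real.rpow_add hN0]; congr 1; ring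
      _ ≤ _ := mul_le_mul_of_nonneg_left h3 (hpw _).le
  · exact even_all hδ0 (by linarith) hC (fun N => zt (j N)) (fun N hN => (hj N hN).2) U

end Pool.Agent.Results.MP_db0fbf_nt.PrimeSumsInArcs
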